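import Mathlib

/-!
# MP_2b3591_co: exponential growth of `m(k, k-1)`

There is an absolute constant `c > 1` with `m(k, k-1) > c^k` for all `k ≥ 3`; in fact
`m(k, k-1) ≥ 2^⌊(k-1)/2⌋`.
-/

namespace Pool.Agent.Results.MP_2b3591_co.ExpGrowth

open Finset

/-- `F` is an intersecting `k`-uniform family on `[n]` with covering number `τ(F) = k`. -/
def Good {n : ℕ} (k : ℕ) (F : Finset (Finset (Fin n))) : Prop :=
  (∀ A ∈ F, A.card = k) ∧ (∀ A ∈ F, ∀ B ∈ F, (A ∩ B).Nonempty) ∧
    IsLeast {t : ℕ | ∃ T : Finset (Fin n), T.card = t ∧ ∀ A ∈ F, (T ∩ A).Nonempty} k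

/-- The members of `F` disjoint from `B`. -/
def avoid {V : Type*} [DecidableEq V] (F : Finset (Finset V)) (B : Finset V) :
    Finset (Finset V) := F.filter (fun A => Disjoint A B)

/-- The values `min_{|B| = a} |F(B̄)|` over all `n` and all intersecting `k`-uniform families `F`
on `[n]` with covering number `k`. -/
def values (k a : ℕ) : Set ℕ :=
  {v | ∃ (n : ℕ) (F : Finset (Finset (Fin n))), Good k F ∧
    IsLeast {w : ℕ | ∃ B : Finset (Fin n), B.card = a ∧ w = (avoid F B).card} v}

/-- The number `m(k, a)`: the maximum of these values. -/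
noncomputable def m (k a : ℕ) : ℕ := sSup (values k a)

/-- Working notion: `k`-uniform, intersecting, nonempty, every set with fewer than `k` elements
is avoided by at least `g` members. -/
def Sys {V : Type*} [DecidableEq V] (k g : ℕ) (F : Finset (Finset V)) : Prop :=
  (∀ A ∈ F, A.card = k) ∧ (∀ A ∈ F, ∀ B ∈ F, ¬ Disjoint A B) ∧ F.Nonempty ∧
    ∀ B : Finset V, B.card < k → g ≤ (avoid F B).card

set_option linter.unusedSectionVars false

section step

variable {V : Type*} [DecidableEq V]

lemma sys_card {k g : ℕ} {F : Finset (Finset V)} (h : Sys k g F) : k * g ≤ F.card := by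
  classical
  obtain ⟨h1, h2, ⟨A0, hA0⟩, h4⟩ := h
  have hsub : A0.biUnion (fun x => avoid F (A0.erase x)) ⊆ F := by
    intro A hA
    obtain ⟨x, -, hx⟩ := mem_biUnion.1 hA
    exact (mem_filter.1 hx).1
  refine le_trans ?_ (card_le_card hsub)
  rw [card_biUnion]
  · have : ∀ x ∈ A0, g ≤ (avoid F (A0.erase x)).card := by
      intro x hx
      apply h4
      rw [card_erase_of_mem hx, h1 A0 hA0]
      have : 0 < A0.card := card_pos.2 ⟨x, hx⟩
      rw [h1 A0 hA0] at this
      omega
    have h5 := card_nsmul_le_sum A0 (fun x => (avoid F (A0.erase x)).card) g this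
    rw [h1 A0 hA0, smul_eq_mul] at h5
    exact h5
  · intro x hx y hy hxy
    refine disjoint_left.2 ?_
    intro A hA hA'
    have d1 := (mem_filter.1 hA).2
    have d2 := (mem_filter.1 hA').2
    apply h2 A (mem_filter.1 hA).1 A0 hA0
    rw [disjoint_left] at d1 d2 ⊢
    intro z hz hz0
    by_cases hzx : z = x
    · subst hzx
      exact d2 hz (mem_erase.2 ⟨hxy, hz0⟩)
    · exact d1 hz (mem_erase.2 ⟨hzx, hz0⟩)

variable {k : ℕ}

/-- The pair `P_i`. -/
def pr (i : Fin (k + 2)) : Finset (Fin (k + 2) × Bool) := {(i, true), (i, false)}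

/-- The transversal given by a Boolean vector. -/
def gr (x : Fin (k + 2) → Bool) : Finset (Fin (k + 2) × Bool) := univ.image (fun i => (i, x i))

lemma card_pr (i : Fin (k + 2)) : (pr i).card = 2 := by
  unfold pr
  rw [card_insert_of_notMem (by simp), card_singleton]

lemma mem_gr {x : Fin (k + 2) → Bool} {p : Fin (k + 2) × Bool} : p ∈ gr x ↔ x p.1 = p.2 := by
  unfold gr
  rw [mem_image]
  constructor
  · rintro ⟨i, -, rfl⟩; rfl
  · intro h; exact ⟨p.1, mem_univ _, Prod.ext rfl h⟩

lemma card_gr (x : Fin (k + 2) → Bool) : (gr x).card = k + 2 := by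
  unfold gr
  rw [card_image_of_injective _ (fun i j h => (Prod.ext_iff.1 h).1), card_univ, Fintype.card_fin]

/-- Majority of three fixed coordinates. -/
def maj (hk : 2 ≤ k) (x : Fin (k + 2) → Bool) : Prop :=
  (x ⟨0, by omega⟩ = true ∧ x ⟨1, by omega⟩ = true) ∨
  (x ⟨0, by omega⟩ = true ∧ x ⟨2, by omega⟩ = true) ∨
  (x ⟨1, by omega⟩ = true ∧ x ⟨2, by omega⟩ = true)

instance (hk : 2 ≤ k) (x : Fin (k + 2) → Bool) : Decidable (maj hk x) := by
  unfold maj; infer_instance

/-- The transversals used. -/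
def Q (hk : 2 ≤ k) : Finset (Fin (k + 2) → Bool) := univ.filter (fun x => maj hk x)

lemma maj_inter {hk : 2 ≤ k} {x y : Fin (k + 2) → Bool} (hx : maj hk x) (hy : maj hk y) :
    ∃ i, x i = true ∧ y i = true := by
  rcases hx with h | h | h <;> rcases hy with h' | h' | h'
  · exact ⟨_, h.1, h'.1⟩
  · exact ⟨_, h.1, h'.1⟩
  · exact ⟨_, h.2, h'.1⟩
  · exact ⟨_, h.1, h'.1⟩
  · exact ⟨_, h.1, h'.1⟩
  · exact ⟨_, h.2, h'.2⟩
  · exact ⟨_, h.1, h'.2⟩
  · exact ⟨_, h.2, h'.2⟩
  · exact ⟨_, h.1, h'.1⟩

lemma card_agree {m : ℕ} (T : Finset (Fin m)) (y : Fin m → Bool) :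
    (univ.filter (fun x : Fin m → Bool => ∀ j ∈ T, x j = y j)).card = 2 ^ (m - T.card) := by
  classical
  have h : univ.filter (fun x : Fin m → Bool => ∀ j ∈ T, x j = y j)
      = Fintype.piFinset (fun j => if j ∈ T then {y j} else (univ : Finset Bool)) := by
    ext x
    simp only [mem_filter, mem_univ, true_and, Fintype.mem_piFinset]
    refine forall_congr' fun j => ?_
    split_ifs with h
    · simp [h]
    · simp [h]
  rw [h, Fintype.card_piFinset]
  have h2 : ∀ j : Fin m, (if j ∈ T then ({y j} : Finset Bool) else univ).card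
      = if j ∈ T then 1 else 2 := by
    intro j
    split_ifs <;> simp
  simp only [h2]
  rw [prod_ite]
  simp only [prod_const_one, one_mul, prod_const]
  congr 1
  have : univ.filter (fun j => j ∉ T) = univ \ T := by
    ext j; simp
  rw [this, card_sdiff_of_subset (subset_univ _), card_univ, Fintype.card_fin]

lemma Q_avoid (hk : 2 ≤ k) (i : Fin (k + 2)) (v : Bool) :
    2 ^ (k - 1) ≤ ((Q hk).filter (fun x => x i = v)).card := by
  classical
  set a0 : Fin (k + 2) := ⟨0, by omega⟩ with h0
  set a1 : Fin (k + 2) := ⟨1, by omega⟩ with h1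
  set a2 : Fin (k + 2) := ⟨2, by omega⟩ with h2
  have n01 : a0 ≠ a1 := by simp [h0, h1]
  have n02 : a0 ≠ a2 := by simp [h0, h2]
  have n12 : a1 ≠ a2 := by simp [h1, h2]
  obtain ⟨T, hT, hTi, hTm⟩ : ∃ T : Finset (Fin (k + 2)), T.card = 3 ∧ i ∈ T ∧
      ∀ x : Fin (k + 2) → Bool, (∀ j ∈ T, j ≠ i → x j = true) → maj hk x := by
    by_cases hi : i = a0 ∨ i = a1 ∨ i = a2
    · refine ⟨{a0, a1, a2}, ?_, ?_, ?_⟩
      · rw [card_eq_three]; exact ⟨a0, a1, a2, n01, n02, n12, rfl⟩
      · simp only [mem_insert, mem_singleton]; exact hi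
      · intro x hx
        rcases hi with rfl | rfl | rfl
        · exact Or.inr (Or.inr ⟨hx a1 (by simp) n01.symm, hx a2 (by simp) n02.symm⟩)
        · exact Or.inr (Or.inl ⟨hx a0 (by simp) n01, hx a2 (by simp) n12.symm⟩)
        · exact Or.inl ⟨hx a0 (by simp) n02, hx a1 (by simp) n12⟩
    · push Not at hi
      refine ⟨{a0, a1, i}, ?_, by simp, ?_⟩
      · rw [card_eq_three]; exact ⟨a0, a1, i, n01, hi.1.symm, hi.2.1.symm, rfl⟩
      · intro x hx
        exact Or.inl ⟨hx a0 (by simp) hi.1.symm, hx a1 (by simp) hi.2.1.symm⟩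
  have hsub : univ.filter (fun x : Fin (k + 2) → Bool =>
      ∀ j ∈ T, x j = (if j = i then v else true)) ⊆ (Q hk).filter (fun x => x i = v) := by
    intro x hx
    simp only [mem_filter, mem_univ, true_and, Q] at hx ⊢
    refine ⟨hTm x fun j hj hji => ?_, ?_⟩
    · rw [hx j hj, if_neg hji]
    · rw [hx i hTi, if_pos rfl]
  have hc := card_le_card hsub
  rw [card_agree, hT] at hc
  rw [show k + 2 - 3 = k - 1 by omega] at hc
  exact hc

/-- The new family. -/
def next (hk : 2 ≤ k) (F : Finset (Finset V)) : Finset (Finset (V ⊕ (Fin (k + 2) × Bool))) :=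
  (F ×ˢ (univ : Finset (Fin (k + 2)))).image (fun p => p.1.disjSum (pr p.2)) ∪
    (Q hk).image (fun x => (∅ : Finset V).disjSum (gr x))

lemma disj_disjSum {W : Type*} [DecidableEq W] {A : Finset V} {P : Finset W}
    {B : Finset (V ⊕ W)} : Disjoint (A.disjSum P) B ↔ Disjoint A B.toLeft ∧ Disjoint P B.toRight := by
  simp only [disjoint_left]
  constructor
  · intro h
    refine ⟨fun a ha hb => ?_, fun a ha hb => ?_⟩
    · exact h (a := Sum.inl a) (by simpa using ha) (by simpa using hb)
    · exact h (a := Sum.inr a) (by simpa using ha) (by simpa using hb)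
  · rintro ⟨h1, h2⟩ (a | a) ha hb
    · exact h1 (by simpa using ha) (by simpa using hb)
    · exact h2 (by simpa using ha) (by simpa using hb)

lemma inj_disjSum {W : Type*} [DecidableEq W] {A A' : Finset V} {P P' : Finset W}
    (h : A.disjSum P = A'.disjSum P') : A = A' ∧ P = P' := by
  constructor
  · ext a
    have := congrArg (fun S => Sum.inl a ∈ S) h
    simpa using this
  · ext a
    have := congrArg (fun S => Sum.inr a ∈ S) h
    simpa using this

lemma next_sys {g : ℕ} (hk : 2 ≤ k) {F : Finset (Finset V)} (h : Sys k g F)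
    (hg : 2 * g ≤ 2 ^ (k - 1)) : Sys (k + 2) (2 * g) (next hk F) := by
  classical
  have hFc := sys_card h
  obtain ⟨h1, h2, h3, h4⟩ := h
  refine ⟨?_, ?_, ?_, ?_⟩
  · intro A hA
    rcases mem_union.1 hA with hA | hA
    · obtain ⟨p, hp, rfl⟩ := mem_image.1 hA
      rw [card_disjSum, card_pr, h1 p.1 (mem_product.1 hp).1]
    · obtain ⟨x, hx, rfl⟩ := mem_image.1 hA
      rw [card_disjSum, card_gr, card_empty, zero_add]
  · intro A hA B hB
    rcases mem_union.1 hA with hA | hA
    · obtain ⟨p, hp, rfl⟩ := mem_image.1 hA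
      rcases mem_union.1 hB with hB | hB
      · obtain ⟨q, hq, rfl⟩ := mem_image.1 hB
        rw [disj_disjSum]
        rintro ⟨hd, -⟩
        rw [toLeft_disjSum] at hd
        exact h2 p.1 (mem_product.1 hp).1 q.1 (mem_product.1 hq).1 hd
      · obtain ⟨x, hx, rfl⟩ := mem_image.1 hB
        rw [disj_disjSum]
        rintro ⟨-, hd⟩
        rw [toRight_disjSum, disjoint_left] at hd
        refine hd (a := (p.2, x p.2)) ?_ (mem_gr.2 rfl)
        unfold pr
        cases x p.2 <;> simp
    · obtain ⟨x, hx, rfl⟩ := mem_image.1 hA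
      rcases mem_union.1 hB with hB | hB
      · obtain ⟨q, hq, rfl⟩ := mem_image.1 hB
        rw [disj_disjSum]
        rintro ⟨-, hd⟩
        rw [toRight_disjSum, disjoint_left] at hd
        refine hd (a := (q.2, x q.2)) (mem_gr.2 rfl) ?_
        unfold pr
        cases x q.2 <;> simp
      · obtain ⟨y, hy, rfl⟩ := mem_image.1 hB
        rw [disj_disjSum]
        rintro ⟨-, hd⟩
        rw [toRight_disjSum, disjoint_left] at hd
        obtain ⟨i, hi1, hi2⟩ := maj_inter (mem_filter.1 hx).2 (mem_filter.1 hy).2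
        exact hd (a := (i, true)) (mem_gr.2 hi1) (mem_gr.2 hi2)
  · obtain ⟨A, hA⟩ := h3
    exact ⟨_, mem_union_left _ (mem_image.2 ⟨(A, ⟨0, by omega⟩),
      mem_product.2 ⟨hA, mem_univ _⟩, rfl⟩)⟩
  · intro B hB
    have hcard := card_toLeft_add_card_toRight (u := B)
    set BA := B.toLeft with hBA
    set BP := B.toRight with hBP
    by_cases ha : BA.card < k
    · -- avoiders of the first kind
      set U : Finset (Fin (k + 2)) := univ.filter (fun i => Disjoint (pr i) BP) with hU
      have hUc : k + 2 ≤ U.card + BP.card := by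
        have hc : (univ \ U).card ≤ BP.card := by
          have : univ \ U ⊆ BP.image Prod.fst := by
            intro i hi
            have hi : ¬ Disjoint (pr i) BP := by
              intro h
              exact (mem_sdiff.1 hi).2 (mem_filter.2 ⟨mem_univ _, h⟩)
            rw [disjoint_left] at hi
            push Not at hi
            obtain ⟨p, hp, hp'⟩ := hi
            rw [mem_image]
            refine ⟨p, hp', ?_⟩
            unfold pr at hp
            simp only [mem_insert, mem_singleton] at hp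
            rcases hp with rfl | rfl <;> rfl
          exact (card_le_card this).trans card_image_le
        rw [card_sdiff_of_subset (subset_univ _), card_univ, Fintype.card_fin] at hc
        omega
      have hsub : ((avoid F BA) ×ˢ U).image (fun p => p.1.disjSum (pr p.2))
          ⊆ avoid (next hk F) B := by
        intro A hA
        obtain ⟨p, hp, rfl⟩ := mem_image.1 hA
        obtain ⟨p1, p2⟩ := mem_product.1 hp
        refine mem_filter.2 ⟨mem_union_left _ (mem_image.2 ⟨p, mem_product.2
          ⟨(mem_filter.1 p1).1, mem_univ _⟩, rfl⟩), ?_⟩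
        rw [disj_disjSum]
        exact ⟨(mem_filter.1 p1).2, (mem_filter.1 p2).2⟩
      have hc := card_le_card hsub
      rw [card_image_of_injective, card_product] at hc
      · refine le_trans ?_ hc
        rcases Nat.eq_zero_or_pos BA.card with h0 | h0
        · have hav : avoid F BA = F := by
            rw [card_eq_zero.1 h0]
            unfold avoid
            exact filter_true_of_mem fun A _ => disjoint_empty_right A
          rw [hav]
          have hU1 : 1 ≤ U.card := by omega
          calc 2 * g ≤ k * g := Nat.mul_le_mul_right _ hk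
            _ ≤ F.card * 1 := by rw [mul_one]; exact hFc
            _ ≤ F.card * U.card := Nat.mul_le_mul_left _ hU1
        · have hU2 : 2 ≤ U.card := by omega
          calc 2 * g = g * 2 := by ring
            _ ≤ (avoid F BA).card * U.card := Nat.mul_le_mul (h4 BA ha) hU2
      · intro p q hpq
        obtain ⟨e1, e2⟩ := inj_disjSum hpq
        refine Prod.ext e1 ?_
        have : (p.2, true) ∈ pr q.2 := by rw [← e2]; unfold pr; simp
        unfold pr at this
        simp at this
        exact this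
    · -- avoiders of the second kind
      have hP1 : BP.card ≤ 1 := by omega
      obtain ⟨i, v, hiv⟩ : ∃ (i : Fin (k + 2)) (v : Bool), BP ⊆ {(i, v)} := by
        rcases Nat.eq_zero_or_pos BP.card with h0 | h0
        · exact ⟨⟨0, by omega⟩, true, by rw [card_eq_zero.1 h0]; exact empty_subset _⟩
        · obtain ⟨p, hp⟩ := card_eq_one.1 (show BP.card = 1 by omega)
          exact ⟨p.1, p.2, by rw [hp]⟩
      have hsub : ((Q hk).filter (fun x => x i = !v)).image (fun x => (∅ : Finset V).disjSum (gr x))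
          ⊆ avoid (next hk F) B := by
        intro A hA
        obtain ⟨x, hx, rfl⟩ := mem_image.1 hA
        refine mem_filter.2 ⟨mem_union_right _ (mem_image.2 ⟨x, (mem_filter.1 hx).1, rfl⟩), ?_⟩
        rw [disj_disjSum]
        refine ⟨disjoint_empty_left _, ?_⟩
        rw [disjoint_left]
        intro p hp hp'
        have := mem_singleton.1 (hiv hp')
        rw [this, mem_gr] at hp
        simp only at hp
        rw [(mem_filter.1 hx).2] at hp
        cases v <;> simp at hp
      have hc := card_le_card hsub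
      rw [card_image_of_injective] at hc
      · exact (hg.trans (Q_avoid hk i (!v))).trans hc
      · intro x y hxy
        obtain ⟨-, e2⟩ := inj_disjSum hxy
        funext j
        have : (j, x j) ∈ gr y := by rw [← e2]; exact mem_gr.2 rfl
        exact (mem_gr.1 this).symm

end step

/-- Transport along an equivalence with `Fin n`. -/
lemma transport {V : Type*} [Fintype V] [DecidableEq V] {k g : ℕ} {F : Finset (Finset V)}
    (h : Sys k g F) : ∃ (n : ℕ) (F' : Finset (Finset (Fin n))), Sys k g F' := by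
  classical
  let e := Fintype.equivFin V
  refine ⟨Fintype.card V, F.image (fun A => A.map e.toEmbedding), ?_, ?_, ?_, ?_⟩
  · intro A' hA'
    obtain ⟨A, hA, rfl⟩ := mem_image.1 hA'
    rw [card_map]; exact h.1 A hA
  · intro A' hA' B' hB'
    obtain ⟨A, hA, rfl⟩ := mem_image.1 hA'
    obtain ⟨B, hB, rfl⟩ := mem_image.1 hB'
    rw [disjoint_map]
    exact h.2.1 A hA B hB
  · exact h.2.2.1.image _
  · intro B hB
    have h1 := h.2.2.2 (B.map e.symm.toEmbedding) (by rw [card_map]; exact hB)
    refine h1.trans ?_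
    refine card_le_card_of_injOn (fun A => A.map e.toEmbedding) ?_ ?_
    · intro A hA
      simp only [avoid, coe_filter, Set.mem_ofPred_eq, mem_image] at hA ⊢
      refine ⟨⟨A, hA.1, rfl⟩, ?_⟩
      rw [disjoint_left] at hA ⊢
      intro z hz hzB
      obtain ⟨a, ha, rfl⟩ := mem_map.1 hz
      refine hA.2 ha ?_
      rw [mem_map]
      exact ⟨_, hzB, by simp⟩
    · intro A _ A' _ hAA
      exact Finset.map_injective _ hAA

/-- Base cases. -/
lemma base2 : Sys 2 1 (powersetCard 2 (univ : Finset (Fin 3))) := by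
  refine ⟨by decide, by decide, by decide, by decide⟩

/-- The lines of the Fano plane. -/
def fano : Finset (Finset (Fin 7)) := univ.image (fun i : Fin 7 => {i, i + 1, i + 3})

set_option maxRecDepth 100000 in
lemma base3 : Sys 3 2 fano := by
  refine ⟨by decide, by decide, by decide, by decide⟩

lemma exists_sys : ∀ k : ℕ, 2 ≤ k → ∃ (n : ℕ) (F : Finset (Finset (Fin n))),
    Sys k (2 ^ ((k - 1) / 2)) F := by
  intro k
  induction k using Nat.strong_induction_on with
  | _ k ih =>
    intro hk
    by_cases h2 : k = 2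
    · subst h2; exact ⟨_, _, base2⟩
    by_cases h3 : k = 3
    · subst h3; exact ⟨_, _, base3⟩
    obtain ⟨j, rfl⟩ : ∃ j, k = j + 2 := ⟨k - 2, by omega⟩
    have hj : 2 ≤ j := by omega
    obtain ⟨n, F, hF⟩ := ih j (by omega) hj
    have h4 : 2 * 2 ^ ((j - 1) / 2) ≤ 2 ^ (j - 1) := by
      rw [← pow_succ']
      exact Nat.pow_le_pow_right (by norm_num) (by omega)
    have h5 := transport (next_sys hj hF h4)
    have h6 : 2 * 2 ^ ((j - 1) / 2) = 2 ^ ((j + 2 - 1) / 2) := by
      rw [← pow_succ']
      congr 1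
      omega
    rw [h6] at h5
    exact h5

/-- The Erdős–Lovász bound: at most `k^(k-t)` members contain a given `t`-set. -/
lemma el_bound {n k : ℕ} {F : Finset (Finset (Fin n))} (hF : Good k F) :
    ∀ (s : ℕ) (T : Finset (Fin n)), T.card + s = k →
      (F.filter (fun A => T ⊆ A)).card ≤ k ^ s := by
  classical
  obtain ⟨h1, h2, h3⟩ := hF
  intro s
  induction s with
  | zero =>
    intro T hT
    rw [pow_zero, card_le_one]
    intro A hA B hB
    rw [mem_filter] at hA hB
    rw [← eq_of_subset_of_card_le hA.2 (by rw [h1 A hA.1]; omega),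
      ← eq_of_subset_of_card_le hB.2 (by rw [h1 B hB.1]; omega)]
  | succ s ih =>
    intro T hT
    have hnot : ¬ ∀ A ∈ F, (T ∩ A).Nonempty := by
      intro h
      have := h3.2 ⟨T, rfl, h⟩
      omega
    push Not at hnot
    obtain ⟨A0, hA0, hd⟩ := hnot
    have hsub : F.filter (fun A => T ⊆ A)
        ⊆ A0.biUnion (fun x => F.filter (fun A => insert x T ⊆ A)) := by
      intro A hA
      rw [mem_filter] at hA
      obtain ⟨x, hx⟩ := h2 A hA.1 A0 hA0
      rw [mem_inter] at hx
      rw [mem_biUnion]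
      exact ⟨x, hx.2, mem_filter.2 ⟨hA.1, insert_subset hx.1 hA.2⟩⟩
    refine (card_le_card hsub).trans ?_
    refine card_biUnion_le.trans ?_
    have h5 : ∀ x ∈ A0, (F.filter (fun A => insert x T ⊆ A)).card ≤ k ^ s := by
      intro x hx
      apply ih
      have hxT : x ∉ T := by
        intro h
        have : x ∈ T ∩ A0 := mem_inter.2 ⟨h, hx⟩
        rw [hd] at this
        exact notMem_empty x this
      rw [card_insert_of_notMem hxT]
      omega
    have h6 := sum_le_card_nsmul A0 _ _ h5
    rw [h1 A0 hA0, smul_eq_mul] at h6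
    refine h6.trans (le_of_eq ?_)
    rw [pow_succ']

lemma good_card {n k : ℕ} {F : Finset (Finset (Fin n))} (hF : Good k F) : F.card ≤ k ^ k := by
  have := el_bound hF k ∅ (by simp)
  simpa using this

lemma values_bdd (k a : ℕ) : BddAbove (values k a) := by
  refine ⟨k ^ k, ?_⟩
  rintro v ⟨n, F, hF, ⟨B, -, rfl⟩, -⟩
  exact (card_le_card (filter_subset _ _)).trans (good_card hF)

lemma sys_good {n k g : ℕ} {F : Finset (Finset (Fin n))} (h : Sys k g F) (hg : 1 ≤ g) :
    Good k F := by
  obtain ⟨h1, h2, h3, h4⟩ := h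
  refine ⟨h1, fun A hA B hB => ?_, ?_, ?_⟩
  · rw [← not_disjoint_iff_nonempty_inter]; exact h2 A hA B hB
  · obtain ⟨A, hA⟩ := h3
    refine ⟨A, h1 A hA, fun B hB => ?_⟩
    rw [← not_disjoint_iff_nonempty_inter]; exact h2 A hA B hB
  · rintro t ⟨T, rfl, hT⟩
    by_contra hlt
    push Not at hlt
    have := h4 T hlt
    obtain ⟨A, hA⟩ := card_pos.1 (show 0 < (avoid F T).card by omega)
    obtain ⟨hA1, hA2⟩ := mem_filter.1 hA
    have := hT A hA1
    rw [← not_disjoint_iff_nonempty_inter] at this
    exact this hA2.symm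

lemma exists_value {n k a : ℕ} {F : Finset (Finset (Fin n))} (hF : Good k F)
    (ha : a < k) : ∃ B : Finset (Fin n), B.card = a ∧
      IsLeast {w : ℕ | ∃ B : Finset (Fin n), B.card = a ∧ w = (avoid F B).card}
        (avoid F B).card := by
  classical
  obtain ⟨h1, h2, h3⟩ := hF
  obtain ⟨T, hT, -⟩ := h3.1
  obtain ⟨B0, -, hB0⟩ := exists_subset_card_eq (show a ≤ T.card by omega)
  obtain ⟨B, hB, hmin⟩ := exists_min_image (powersetCard a (univ : Finset (Fin n)))
    (fun B => (avoid F B).card) ⟨B0, by rw [mem_powersetCard_univ]; exact hB0⟩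
  rw [mem_powersetCard_univ] at hB
  refine ⟨B, hB, ⟨B, hB, rfl⟩, ?_⟩
  rintro w ⟨B', hB', rfl⟩
  exact hmin B' (by rw [mem_powersetCard_univ]; exact hB')

/-- **Main theorem.** There is an absolute constant `c > 1` with `m(k, k-1) > c^k` for every
`k ≥ 3`. More precisely `m(k, k-1) ≥ 2^⌊(k-1)/2⌋`. Here `m(k, k-1)` is indeed the maximum of the
set of values. -/
theorem result :
    (∃ c : ℝ, 1 < c ∧ ∀ k : ℕ, 3 ≤ k → c ^ k < (m k (k - 1) : ℝ)) ∧
    (∀ k : ℕ, 3 ≤ k → IsGreatest (values k (k - 1)) (m k (k - 1)) ∧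
      2 ^ ((k - 1) / 2) ≤ m k (k - 1)) := by
  classical
  have main : ∀ k : ℕ, 3 ≤ k → IsGreatest (values k (k - 1)) (m k (k - 1)) ∧
      2 ^ ((k - 1) / 2) ≤ m k (k - 1) := by
    intro k hk
    obtain ⟨n, F, hF⟩ := exists_sys k (by omega)
    have hg : 1 ≤ 2 ^ ((k - 1) / 2) := Nat.one_le_two_pow
    have hG := sys_good hF hg
    obtain ⟨B, hB, hl⟩ := exists_value hG (show k - 1 < k by omega)
    have hv : (avoid F B).card ∈ values k (k - 1) := ⟨n, F, hG, hl⟩
    have hle : (avoid F B).card ≤ m k (k - 1) := le_csSup (values_bdd _ _) hv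
    refine ⟨⟨Nat.sSup_mem ⟨_, hv⟩ (values_bdd _ _), fun x hx => le_csSup (values_bdd _ _) hx⟩, ?_⟩
    exact (hF.2.2.2 B (by omega)).trans hle
  refine ⟨⟨(2 : ℝ) ^ ((1 : ℝ) / 5), ?_, ?_⟩, main⟩
  · exact Real.one_lt_rpow (by norm_num) (by norm_num)
  · intro k hk
    have h1 := (main k hk).2
    have h2 : ((2 : ℝ) ^ ((1 : ℝ) / 5)) ^ k < (2 : ℝ) ^ ((((k - 1) / 2 : ℕ) : ℝ)) := by
      rw [← Real.rpow_natCast, ← Real.rpow_mul (by norm_num)]
      apply Real.rpow_lt_rpow_of_exponent_lt (by norm_num)
      have h3 : k + 1 ≤ 5 * ((k - 1) / 2) := by omega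
      have h4 : ((k : ℝ) + 1) ≤ 5 * (((k - 1) / 2 : ℕ) : ℝ) := by exact_mod_cast h3
      linarith
    refine h2.trans_le ?_
    rw [Real.rpow_natCast]
    exact_mod_cast h1

end Pool.Agent.Results.MP_2b3591_co.ExpGrowth
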